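import Mathlib

/-!
# Codes of countable well-orders

Helper file for MP_6a38e0.
-/

set_option autoImplicit false

open Set Filter Topology MeasureTheory

namespace Q214.TR

/-- The number of the initial segment of length `n`. -/
def pre (a : ℕ → Bool) : ℕ → ℕ
  | 0 => 0
  | n + 1 => 2 * pre a n + if a n then 1 else 0

lemma pre_inj {a b : ℕ → Bool} {n : ℕ} (h : pre a n = pre b n) : ∀ i < n, a i = b i := by
  induction n with
  | zero => intro i hi; omega
  | succ n ih =>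
    simp only [pre] at h
    have h1 : pre a n = pre b n ∧ a n = b n := by
      rcases ha : a n <;> rcases hb : b n <;> simp [ha, hb] at h ⊢ <;> omega
    intro i hi
    rcases Nat.lt_succ_iff_lt_or_eq.1 hi with h2 | rfl
    · exact ih h1.1 i h2
    · exact h1.2

/-- Two different sequences are separated by a prefix. -/
lemma exists_sep {a b : ℕ → Bool} (h : a ≠ b) : ∃ N, ∀ n ≥ N, pre a n ≠ pre b n := by
  obtain ⟨i, hi⟩ := Function.ne_iff.1 h
  exact ⟨i + 1, fun n hn h2 => hi (pre_inj h2 i (by omega))⟩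

/-- The list of the prefixes. -/
def chi (a : ℕ → Bool) (m : ℕ) : ℤ := if (Nat.unpair m).2 = pre a (Nat.unpair m).1 then 1 else 0

lemma chi_pair (a : ℕ → Bool) (n x : ℕ) :
    chi a (Nat.pair n x) = if x = pre a n then 1 else 0 := by
  simp [chi]

lemma chi_bound (a : ℕ → Bool) (m : ℕ) : 0 ≤ chi a m ∧ chi a m ≤ 1 := by
  unfold chi
  split_ifs <;> simp

/-- The sequence is recovered from sums of lists. -/
lemma indicator_sum {ι : Type*} (I J : Finset ι) (a : ι → ℕ → Bool)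
    (h : ∀ m, ∑ i ∈ I, chi (a i) m = ∑ i ∈ J, chi (a i) m) (F : (ℕ → Bool) → ℤ) :
    ∑ i ∈ I, F (a i) = ∑ i ∈ J, F (a i) := by
  classical
  set T : Finset (ℕ → Bool) := (I ∪ J).image a with hT
  have h1 : ∃ N, ∀ x ∈ T, ∀ y ∈ T, x ≠ y → pre x N ≠ pre y N := by
    choose f hf using fun p : {p : (ℕ → Bool) × (ℕ → Bool) // p.1 ≠ p.2} => exists_sep p.2
    refine ⟨(T ×ˢ T).sup fun p => if h : p.1 ≠ p.2 then f ⟨p, h⟩ else 0, fun x hx y hy hxy => ?_⟩
    refine hf ⟨(x, y), hxy⟩ _ ?_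
    have h2 := Finset.le_sup (f := fun p : (ℕ → Bool) × (ℕ → Bool) =>
      if h : p.1 ≠ p.2 then f ⟨p, h⟩ else 0) (Finset.mk_mem_product hx hy)
    simp only [dif_pos hxy] at h2
    exact h2
  obtain ⟨N, hN⟩ := h1
  have h2 : ∀ y ∈ T, F y = ∑ x ∈ T, F x * chi y (Nat.pair N (pre x N)) := by
    intro y hy
    rw [Finset.sum_eq_single y]
    · rw [chi_pair, if_pos rfl, mul_one]
    · intro x hx hxy
      rw [chi_pair, if_neg (hN x hx y hy hxy), mul_zero]
    · intro h; exact absurd hy h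
  have h3 : ∀ K ⊆ I ∪ J, ∑ i ∈ K, F (a i) = ∑ x ∈ T, F x * ∑ i ∈ K, chi (a i) (Nat.pair N (pre x N)) := by
    intro K hK
    rw [Finset.sum_congr rfl fun i hi => h2 (a i) (Finset.mem_image_of_mem a (hK hi)),
      Finset.sum_comm]
    refine Finset.sum_congr rfl fun x _ => ?_
    rw [Finset.mul_sum]
  rw [h3 I Finset.subset_union_left, h3 J Finset.subset_union_right]
  refine Finset.sum_congr rfl fun x _ => ?_
  rw [h]

lemma indicator_three {a b c a' b' c' : ℕ → Bool}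
    (h : ∀ m, chi a m + chi b m + chi c m = chi a' m + chi b' m + chi c' m)
    (F : (ℕ → Bool) → ℤ) : F a + F b + F c = F a' + F b' + F c' := by
  have h1 := indicator_sum ({0, 1, 2} : Finset (Fin 6)) ({3, 4, 5} : Finset (Fin 6))
    ![a, b, c, a', b', c'] (by
      intro m
      have h0 := h m
      simp [Finset.sum_insert]
      linarith) F
  simp [Finset.sum_insert] at h1
  linarith

/-! ### Well-orders -/

/-- The relation coded by a sequence. -/
def Rel (a : ℕ → Bool) (i j : ℕ) : Prop := a (Nat.pair i j) = true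

/-- The codes of non-isomorphic well-orders. -/
def Ed (a b : ℕ → Bool) : Prop :=
  IsWellOrder ℕ (Rel a) ∧ IsWellOrder ℕ (Rel b) ∧ IsEmpty (Rel a ≃r Rel b)

lemma Ed.symm {a b : ℕ → Bool} (h : Ed a b) : Ed b a :=
  ⟨h.2.1, h.1, ⟨fun f => h.2.2.false f.symm⟩⟩

lemma Ed.ne {a b : ℕ → Bool} (h : Ed a b) : a ≠ b := by
  rintro rfl
  exact h.2.2.false (RelIso.refl _)

/-- A witness that two sequences are not related. -/
def Wit (a b : ℕ → Bool) (f : ℕ → ℕ) : Prop :=
  (∃ i j, i ≠ j ∧ ¬ Rel a i j ∧ ¬ Rel a j i) ∨ (∃ i j, i ≠ j ∧ ¬ Rel b i j ∧ ¬ Rel b j i) ∨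
  (∀ n, Rel a (f (n + 1)) (f n)) ∨ (∀ n, Rel b (f (n + 1)) (f n)) ∨
  ((∀ i j, f i = f j → i = j) ∧ (∀ n, ∃ i, f i = n) ∧ ∀ i j, Rel a i j ↔ Rel b (f i) (f j))

lemma isWellOrder_iff (r : ℕ → ℕ → Prop) : IsWellOrder ℕ r ↔
    (∀ i j, i ≠ j → r i j ∨ r j i) ∧ ∀ f : ℕ → ℕ, ∃ n, ¬ r (f (n + 1)) (f n) := by
  constructor
  · intro h
    refine ⟨fun i j hij => ?_, fun f => ?_⟩
    · rcases trichotomous_of r i j with h1 | h1 | h1
      · exact Or.inl h1
      · exact absurd h1 hij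
      · exact Or.inr h1
    · by_contra h1
      push Not at h1
      have h2 := wellFounded_iff_isEmpty_descending_chain.1 h.wf
      exact h2.false ⟨f, h1⟩
  · rintro ⟨h1, h2⟩
    refine { wf := ?_, trichotomous := ?_ }
    · rw [wellFounded_iff_isEmpty_descending_chain]
      refine ⟨fun f => ?_⟩
      obtain ⟨n, hn⟩ := h2 f.1
      exact hn (f.2 n)
    · intro i j hij hji
      by_contra h3
      rcases h1 i j h3 with h4 | h4
      · exact hij h4
      · exact hji h4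

theorem not_Ed_iff (a b : ℕ → Bool) : ¬ Ed a b ↔ ∃ f, Wit a b f := by
  constructor
  · intro h
    by_cases ha : IsWellOrder ℕ (Rel a)
    · by_cases hb : IsWellOrder ℕ (Rel b)
      · have h1 : Nonempty (Rel a ≃r Rel b) := by
          by_contra h1
          exact h ⟨ha, hb, not_nonempty_iff.1 h1⟩
        obtain ⟨f⟩ := h1
        refine ⟨f, Or.inr (Or.inr (Or.inr (Or.inr ⟨fun i j hij => f.injective hij,
          fun n => f.surjective n, fun i j => (f.map_rel_iff).symm⟩)))⟩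
      · rw [isWellOrder_iff] at hb
        push Not at hb
        by_cases h1 : ∀ i j, i ≠ j → Rel b i j ∨ Rel b j i
        · obtain ⟨f, hf⟩ := hb h1
          exact ⟨f, Or.inr (Or.inr (Or.inr (Or.inl hf)))⟩
        · push Not at h1
          exact ⟨id, Or.inr (Or.inl h1)⟩
    · rw [isWellOrder_iff] at ha
      push Not at ha
      by_cases h1 : ∀ i j, i ≠ j → Rel a i j ∨ Rel a j i
      · obtain ⟨f, hf⟩ := ha h1
        exact ⟨f, Or.inr (Or.inr (Or.inl hf))⟩
      · push Not at h1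
        exact ⟨id, Or.inl h1⟩
  · rintro ⟨f, hf⟩ ⟨ha, hb, hab⟩
    rw [isWellOrder_iff] at ha hb
    rcases hf with ⟨i, j, hij, h1, h2⟩ | ⟨i, j, hij, h1, h2⟩ | h1 | h1 | ⟨h1, h2, h3⟩
    · rcases ha.1 i j hij with h | h
      · exact h1 h
      · exact h2 h
    · rcases hb.1 i j hij with h | h
      · exact h1 h
      · exact h2 h
    · obtain ⟨n, hn⟩ := ha.2 f
      exact hn (h1 n)
    · obtain ⟨n, hn⟩ := hb.2 f
      exact hn (h1 n)
    · exact hab.false ⟨Equiv.ofBijective f ⟨fun i j => h1 i j, h2⟩, fun {i j} => (h3 i j).symm⟩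

/-! ### Order types -/

open scoped Classical in
/-- The order type of a code. -/
noncomputable def ot (a : ℕ → Bool) : Ordinal.{0} :=
  if h : IsWellOrder ℕ (Rel a) then @Ordinal.type ℕ (Rel a) h else 0

lemma ot_eq {a : ℕ → Bool} (h : IsWellOrder ℕ (Rel a)) : ot a = @Ordinal.type ℕ (Rel a) h := by
  unfold ot
  rw [dif_pos h]

lemma Ed.ot_ne {a b : ℕ → Bool} (h : Ed a b) : ot a ≠ ot b := by
  have := h.1
  have := h.2.1
  rw [ot_eq h.1, ot_eq h.2.1]
  intro h1
  obtain ⟨f⟩ := Ordinal.type_eq.1 h1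
  exact h.2.2.false f

lemma Ed_of_ot_ne {a b : ℕ → Bool} (ha : IsWellOrder ℕ (Rel a)) (hb : IsWellOrder ℕ (Rel b))
    (h : ot a ≠ ot b) : Ed a b := by
  refine ⟨ha, hb, ⟨fun f => h ?_⟩⟩
  rw [ot_eq ha, ot_eq hb]
  exact Ordinal.type_eq.2 ⟨f⟩

lemma ot_lt (a : ℕ → Bool) : ot a < Ordinal.omega 1 := by
  unfold ot
  split_ifs with h
  · rw [← Cardinal.ord_aleph, Cardinal.lt_ord, Ordinal.card_type, Cardinal.mk_nat]
    exact Cardinal.aleph0_lt_aleph_one
  · exact (Ordinal.omega_pos 1)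

/-- Every countably infinite ordinal has a code. -/
lemma exists_code {o : Ordinal.{0}} (h : o.card = Cardinal.aleph0) :
    ∃ a, IsWellOrder ℕ (Rel a) ∧ ot a = o := by
  classical
  have h1 : Cardinal.mk ℕ = Cardinal.mk o.ToType := by
    rw [Cardinal.mk_nat, Cardinal.mk_toType, h]
  obtain ⟨f⟩ := Cardinal.eq.1 h1
  let a : ℕ → Bool := fun m => decide (f (Nat.unpair m).1 < f (Nat.unpair m).2)
  have ha : Rel a = (f ⁻¹'o (· < ·)) := by
    funext i j
    simp [Rel, a]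
  have hw : IsWellOrder ℕ (Rel a) := by
    rw [ha]
    infer_instance
  refine ⟨a, hw, ?_⟩
  rw [ot_eq hw]
  have h2 : @Ordinal.type ℕ (Rel a) hw = Ordinal.type (f ⁻¹'o ((· < ·) : o.ToType → o.ToType → Prop)) :=
    Ordinal.type_eq.2 ⟨⟨Equiv.refl ℕ, by intro i j; rw [ha]; rfl⟩⟩
  rw [h2, Ordinal.type_preimage, Ordinal.type_toType]

end Q214.TR
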