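import Mathlib
import Pool.Agent.Q214.TR.Codes

/-!
# The differences of codes

Helper file for MP_6a38e0.
-/

set_option autoImplicit false

open Set Filter Topology MeasureTheory

namespace Q214.TR

lemma measurable_pre (n : ℕ) : Measurable fun a : ℕ → Bool => pre a n := by
  induction n with
  | zero => exact measurable_const
  | succ n ih =>
    simp only [pre]
    refine (ih.const_mul 2).add ?_
    exact (measurable_of_countable (fun b : Bool => if b then (1 : ℕ) else 0)).comp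
      (measurable_pi_apply n)

lemma measurable_chi (m : ℕ) : Measurable fun a : ℕ → Bool => chi a m := by
  unfold chi
  exact (measurable_of_countable (fun k : ℕ => if (Nat.unpair m).2 = k then (1 : ℤ) else 0)).comp
    (measurable_pre _)

/-- The difference of the lists. -/
def psi (p : (ℕ → Bool) × (ℕ → Bool)) (m : ℕ) : ℤ := chi p.1 m - chi p.2 m

lemma measurable_psi : Measurable psi := by
  refine measurable_pi_lambda _ fun m => ?_
  exact ((measurable_chi m).comp measurable_fst).sub ((measurable_chi m).comp measurable_snd)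

lemma psi_bound (p : (ℕ → Bool) × (ℕ → Bool)) (m : ℕ) : |psi p m| ≤ 1 := by
  unfold psi
  have h1 := chi_bound p.1 m
  have h2 := chi_bound p.2 m
  rw [abs_le]
  constructor <;> omega

lemma psi_inj {a b a' b' : ℕ → Bool} (h1 : a ≠ b) (h : psi (a, b) = psi (a', b')) :
    a = a' ∧ b = b' := by
  classical
  have h3 : ∀ F : (ℕ → Bool) → ℤ, F a + F b' = F b + F a' := by
    intro F
    have := indicator_three (a := a) (b := b') (c := a) (a' := b) (b' := a') (c' := a) (by
      intro m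
      have h4 := congrFun h m
      simp only [psi] at h4
      linarith) F
    linarith
  constructor
  · have h4 := h3 (fun x => if x = a then 1 else 0)
    simp only [if_true] at h4
    rw [if_neg (Ne.symm h1)] at h4
    by_contra h5
    rw [if_neg (Ne.symm h5)] at h4
    split_ifs at h4 <;> omega
  · have h4 := h3 (fun x => if x = b then 1 else 0)
    simp only [if_true] at h4
    rw [if_neg h1] at h4
    by_contra h5
    rw [if_neg (Ne.symm h5)] at h4
    split_ifs at h4 <;> omega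

lemma psi_self (a : ℕ → Bool) : psi (a, a) = 0 := by
  funext m
  simp [psi]

lemma psi_ne_zero {a b : ℕ → Bool} (h1 : a ≠ b) : psi (a, b) ≠ 0 := by
  intro h
  have h2 := psi_inj h1 (h.trans (psi_self a).symm)
  exact h1 h2.2.symm

lemma neg_psi (a b : ℕ → Bool) : -psi (a, b) = psi (b, a) := by
  funext m
  simp [psi]

/-- The differences of codes of non-isomorphic well-orders. -/
def ZZ : Set (ℕ → ℤ) := {e | ∃ a b, Ed a b ∧ e = psi (a, b)}

lemma ZZ.neg {e : ℕ → ℤ} (h : e ∈ ZZ) : -e ∈ ZZ := by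
  obtain ⟨a, b, hab, rfl⟩ := h
  exact ⟨b, a, hab.symm, neg_psi a b⟩

lemma ZZ.ne_zero {e : ℕ → ℤ} (h : e ∈ ZZ) : e ≠ 0 := by
  obtain ⟨a, b, hab, rfl⟩ := h
  exact psi_ne_zero hab.ne

/-- The remaining sequences. -/
def AA : Set (ℕ → ℤ) := {e | ∀ m, |e m| ≤ 2} \ ZZ

lemma measurableSet_Rel (i j : ℕ) : MeasurableSet {a : ℕ → Bool | Rel a i j} :=
  measurableSet_eq_fun (measurable_pi_apply (Nat.pair i j)) measurable_const

lemma measurableSet_Rel' (u v : ℕ) : MeasurableSet {q : (ℕ → Bool) × (ℕ → ℕ) |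
    Rel q.1 (q.2 u) (q.2 v)} := by
  have h1 : {q : (ℕ → Bool) × (ℕ → ℕ) | Rel q.1 (q.2 u) (q.2 v)} =
      ⋃ i, ⋃ j, {q : (ℕ → Bool) × (ℕ → ℕ) | Rel q.1 i j} ∩
        ({q : (ℕ → Bool) × (ℕ → ℕ) | q.2 u = i} ∩ {q : (ℕ → Bool) × (ℕ → ℕ) | q.2 v = j}) := by
    ext q
    simp
  rw [h1]
  refine MeasurableSet.iUnion fun i => MeasurableSet.iUnion fun j => ?_
  refine (measurable_fst (measurableSet_Rel i j)).inter ?_
  exact (measurableSet_eq_fun ((measurable_pi_apply u).comp measurable_snd) measurable_const).inter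
    (measurableSet_eq_fun ((measurable_pi_apply v).comp measurable_snd) measurable_const)

lemma measurableSet_Wit : MeasurableSet
    {q : ((ℕ → Bool) × (ℕ → Bool)) × (ℕ → ℕ) | Wit q.1.1 q.1.2 q.2} := by
  have hR1 : ∀ i j, MeasurableSet {q : ((ℕ → Bool) × (ℕ → Bool)) × (ℕ → ℕ) | Rel q.1.1 i j} :=
    fun i j => (measurable_fst.comp measurable_fst) (measurableSet_Rel i j)
  have hR2 : ∀ i j, MeasurableSet {q : ((ℕ → Bool) × (ℕ → Bool)) × (ℕ → ℕ) | Rel q.1.2 i j} :=
    fun i j => (measurable_snd.comp measurable_fst) (measurableSet_Rel i j)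
  have hS1 : ∀ i j, MeasurableSet {q : ((ℕ → Bool) × (ℕ → Bool)) × (ℕ → ℕ) |
      Rel q.1.1 (q.2 i) (q.2 j)} :=
    fun i j => ((measurable_fst.comp measurable_fst).prodMk measurable_snd) (measurableSet_Rel' i j)
  have hS2 : ∀ i j, MeasurableSet {q : ((ℕ → Bool) × (ℕ → Bool)) × (ℕ → ℕ) |
      Rel q.1.2 (q.2 i) (q.2 j)} :=
    fun i j => ((measurable_snd.comp measurable_fst).prodMk measurable_snd) (measurableSet_Rel' i j)
  have hE : ∀ i j, MeasurableSet {q : ((ℕ → Bool) × (ℕ → Bool)) × (ℕ → ℕ) | q.2 i = j} :=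
    fun i j => measurableSet_eq_fun ((measurable_pi_apply i).comp measurable_snd) measurable_const
  have hE2 : ∀ i j, MeasurableSet {q : ((ℕ → Bool) × (ℕ → Bool)) × (ℕ → ℕ) | q.2 i = q.2 j} :=
    fun i j => measurableSet_eq_fun ((measurable_pi_apply i).comp measurable_snd)
      ((measurable_pi_apply j).comp measurable_snd)
  have hpart : ∀ (r : ((ℕ → Bool) × (ℕ → Bool)) × (ℕ → ℕ) → ℕ → ℕ → Prop),
      (∀ i j, MeasurableSet {q | r q i j}) →
      MeasurableSet {q : ((ℕ → Bool) × (ℕ → Bool)) × (ℕ → ℕ) |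
        ∃ i j, i ≠ j ∧ ¬ r q i j ∧ ¬ r q j i} := by
    intro r hr
    have : {q : ((ℕ → Bool) × (ℕ → Bool)) × (ℕ → ℕ) | ∃ i j, i ≠ j ∧ ¬ r q i j ∧ ¬ r q j i} =
        ⋃ i, ⋃ j, ⋃ (_ : i ≠ j), {q | r q i j}ᶜ ∩ {q | r q j i}ᶜ := by
      ext q
      simp only [Set.mem_ofPred_eq, Set.mem_iUnion, Set.mem_inter_iff, Set.mem_compl_iff,
        exists_prop]
    rw [this]
    exact MeasurableSet.iUnion fun i => MeasurableSet.iUnion fun j => MeasurableSet.iUnion fun _ =>
      (hr i j).compl.inter (hr j i).compl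
  unfold Wit
  simp only [Set.ofPred_or]
  refine (hpart _ hR1).union ((hpart _ hR2).union (MeasurableSet.union ?_ (MeasurableSet.union ?_ ?_)))
  · simp only [Set.ofPred_forall]
    exact MeasurableSet.iInter fun n => hS1 _ _
  · simp only [Set.ofPred_forall]
    exact MeasurableSet.iInter fun n => hS2 _ _
  · have : {q : ((ℕ → Bool) × (ℕ → Bool)) × (ℕ → ℕ) | (∀ i j, q.2 i = q.2 j → i = j) ∧
        (∀ n, ∃ i, q.2 i = n) ∧ ∀ i j, Rel q.1.1 i j ↔ Rel q.1.2 (q.2 i) (q.2 j)} =
        (⋂ i, ⋂ j, ⋂ (_ : i ≠ j), {q | q.2 i = q.2 j}ᶜ) ∩ ((⋂ n, ⋃ i, {q | q.2 i = n}) ∩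
        ⋂ i, ⋂ j, (({q | Rel q.1.1 i j} ∩ {q | Rel q.1.2 (q.2 i) (q.2 j)}) ∪
          ({q | Rel q.1.1 i j}ᶜ ∩ {q | Rel q.1.2 (q.2 i) (q.2 j)}ᶜ))) := by
      ext q
      simp only [Set.mem_ofPred_eq, Set.mem_inter_iff, Set.mem_iInter, Set.mem_compl_iff,
        Set.mem_iUnion, Set.mem_union]
      refine and_congr ?_ (and_congr Iff.rfl ?_)
      · constructor
        · intro h i j hij h2
          exact hij (h i j h2)
        · intro h i j h2
          by_contra hij
          exact h i j hij h2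
      · refine forall_congr' fun i => forall_congr' fun j => ?_
        exact iff_iff_and_or_not_and_not
    rw [this]
    refine MeasurableSet.inter ?_ (MeasurableSet.inter ?_ ?_)
    · exact MeasurableSet.iInter fun i => MeasurableSet.iInter fun j => MeasurableSet.iInter fun _ =>
        (hE2 i j).compl
    · exact MeasurableSet.iInter fun n => MeasurableSet.iUnion fun i => hE i n
    · exact MeasurableSet.iInter fun i => MeasurableSet.iInter fun j =>
        ((hR1 i j).inter (hS2 i j)).union ((hR1 i j).compl.inter (hS2 i j).compl)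

/-- The off-diagonal pairs. -/
def OD : Set ((ℕ → Bool) × (ℕ → Bool)) := {p | p.1 ≠ p.2}

lemma measurableSet_OD : MeasurableSet OD := by
  have : OD = {p : (ℕ → Bool) × (ℕ → Bool) | p.1 = p.2}ᶜ := rfl
  rw [this]
  exact (measurableSet_eq_fun measurable_fst measurable_snd).compl

lemma psi_injOn : InjOn psi OD := by
  rintro ⟨a, b⟩ h ⟨a', b'⟩ _ h2
  obtain ⟨h3, h4⟩ := psi_inj h h2
  exact Prod.ext h3 h4

instance : PolishSpace (ℕ → Bool) := {}

theorem AA_analytic : AnalyticSet AA := by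
  have h1 : MeasurableSet (psi '' OD) :=
    measurableSet_OD.image_of_measurable_injOn measurable_psi psi_injOn
  have h2 : AnalyticSet ((fun q : ((ℕ → Bool) × (ℕ → Bool)) × (ℕ → ℕ) => psi q.1) ''
      ((Prod.fst ⁻¹' OD) ∩ {q | Wit q.1.1 q.1.2 q.2})) := by
    refine MeasurableSet.analyticSet_image ?_ (measurable_psi.comp measurable_fst)
    exact (measurable_fst measurableSet_OD).inter measurableSet_Wit
  have h3 : MeasurableSet {e : ℕ → ℤ | ∀ m, |e m| ≤ 2} := by
    simp only [Set.ofPred_forall]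
    refine MeasurableSet.iInter fun m => ?_
    exact measurableSet_le ((measurable_of_countable (fun z : ℤ => |z|)).comp
      (measurable_pi_apply m)) measurable_const
  have h4 : AA = ⋃ b : Bool, bif b then ({e : ℕ → ℤ | ∀ m, |e m| ≤ 2} \ psi '' OD) else
      ((fun q : ((ℕ → Bool) × (ℕ → Bool)) × (ℕ → ℕ) => psi q.1) ''
      ((Prod.fst ⁻¹' OD) ∩ {q | Wit q.1.1 q.1.2 q.2})) := by
    ext e
    simp only [Set.mem_iUnion, Bool.exists_bool, cond_false, cond_true]
    constructor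
    · rintro ⟨h5, h6⟩
      by_cases h7 : e ∈ psi '' OD
      · left
        obtain ⟨⟨a, b⟩, h8, rfl⟩ := h7
        have h9 : ¬ Ed a b := fun h9 => h6 ⟨a, b, h9, rfl⟩
        obtain ⟨f, hf⟩ := (not_Ed_iff a b).1 h9
        exact ⟨⟨(a, b), f⟩, ⟨h8, hf⟩, rfl⟩
      · right
        exact ⟨h5, h7⟩
    · rintro (⟨⟨⟨a, b⟩, f⟩, ⟨h5, h6⟩, rfl⟩ | ⟨h5, h6⟩)
      · refine ⟨fun m => (psi_bound _ m).trans (by norm_num), ?_⟩
        rintro ⟨a', b', h7, h8⟩
        obtain ⟨rfl, rfl⟩ := psi_inj h5 h8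
        exact (not_Ed_iff a b).2 ⟨f, h6⟩ h7
      · refine ⟨h5, ?_⟩
        rintro ⟨a', b', h7, rfl⟩
        exact h6 ⟨(a', b'), h7.ne, rfl⟩
  rw [h4]
  refine AnalyticSet.iUnion fun b => ?_
  cases b
  · exact h2
  · exact (h3.diff h1).analyticSet

lemma zero_mem_AA : (0 : ℕ → ℤ) ∈ AA :=
  ⟨fun m => by simp, fun h => ZZ.ne_zero h rfl⟩

/-- A continuous enumeration of the remaining sequences. -/
theorem exists_enum : ∃ g : (ℕ → ℕ) → ℕ → ℤ, Continuous g ∧ range g = AA := by
  have h := AA_analytic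
  rw [AnalyticSet] at h
  rcases h with h | ⟨f, hf, hf2⟩
  · exact absurd zero_mem_AA (by rw [h]; simp)
  · exact ⟨f, hf, hf2⟩

end Q214.TR
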