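import Mathlib

/-!
# Expansions in base 5

Helper file for MP_6a38e0.
-/

set_option autoImplicit false

open Set Filter Topology

namespace Q214.TR

/-- The value of a sequence of digits. -/
noncomputable def ser (c : ℕ → ℤ) : ℝ := ∑' i, (c i : ℝ) * (1 / 5 : ℝ) ^ (i + 1)

lemma hasSum_geo (K : ℝ) : HasSum (fun i : ℕ => K * (1 / 5 : ℝ) ^ (i + 1)) (K / 4) := by
  have h := hasSum_geometric_of_lt_one (r := (1 / 5 : ℝ)) (by norm_num) (by norm_num)
  have h2 := h.mul_left (K / 5 : ℝ)
  have h3 : (K / 5 : ℝ) * (1 - 1 / 5)⁻¹ = K / 4 := by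
    field_simp
    norm_num
  rw [h3] at h2
  have h4 : (fun i : ℕ => K * (1 / 5 : ℝ) ^ (i + 1)) = fun i : ℕ => K / 5 * (1 / 5 : ℝ) ^ i := by
    funext i
    rw [pow_succ]
    ring
  rw [h4]
  exact h2

lemma term_le {c : ℕ → ℤ} {K : ℕ} (h : ∀ i, |c i| ≤ K) (i : ℕ) :
    ‖(c i : ℝ) * (1 / 5 : ℝ) ^ (i + 1)‖ ≤ (K : ℝ) * (1 / 5 : ℝ) ^ (i + 1) := by
  rw [norm_mul, Real.norm_eq_abs, Real.norm_of_nonneg (by positivity)]
  refine mul_le_mul_of_nonneg_right ?_ (by positivity)
  exact_mod_cast h i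

lemma summable_ser {c : ℕ → ℤ} {K : ℕ} (h : ∀ i, |c i| ≤ K) :
    Summable fun i => (c i : ℝ) * (1 / 5 : ℝ) ^ (i + 1) :=
  Summable.of_norm_bounded (hasSum_geo K).summable (term_le h)

lemma abs_ser_le {c : ℕ → ℤ} {K : ℕ} (h : ∀ i, |c i| ≤ K) : |ser c| ≤ K / 4 := by
  rw [← Real.norm_eq_abs]
  exact tsum_of_norm_bounded (hasSum_geo K) (term_le h)

lemma ser_sub {c d : ℕ → ℤ} {K L : ℕ} (hc : ∀ i, |c i| ≤ K) (hd : ∀ i, |d i| ≤ L) :
    ser c - ser d = ser (fun i => c i - d i) := by
  rw [ser, ser, ser, ← (summable_ser hc).tsum_sub (summable_ser hd)]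
  refine tsum_congr fun i => ?_
  push_cast
  ring

lemma ser_neg (c : ℕ → ℤ) : ser (fun i => - c i) = - ser c := by
  rw [ser, ser, ← tsum_neg]
  refine tsum_congr fun i => ?_
  push_cast
  ring

lemma ser_succ {c : ℕ → ℤ} {K : ℕ} (h : ∀ i, |c i| ≤ K) :
    ser c = (c 0 + ser (fun i => c (i + 1))) / 5 := by
  rw [ser, (summable_ser h).tsum_eq_zero_add, ser]
  rw [add_div, ← tsum_div_const]
  congr 1
  · ring
  · refine tsum_congr fun i => ?_
    rw [pow_succ (1 / 5 : ℝ) (i + 1)]
    ring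

/-- Digits at most four, and at most three in one of any two consecutive positions. -/
def Good (c : ℕ → ℤ) : Prop := (∀ i, |c i| ≤ (4 : ℕ)) ∧ ∀ i, |c i| ≤ 3 ∨ |c (i + 1)| ≤ 3

lemma Good.shift {c : ℕ → ℤ} (h : Good c) : Good fun i => c (i + 1) :=
  ⟨fun i => h.1 (i + 1), fun i => h.2 (i + 1)⟩

lemma Good.lt {c : ℕ → ℤ} (h : Good c) : |ser c| < 1 := by
  have h1 : ser c = (c 0 + (c 1 + ser (fun i => c (i + 2))) / 5) / 5 := by
    rw [ser_succ h.1, ser_succ h.shift.1]
  have h2 : |ser (fun i => c (i + 2))| ≤ 1 := by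
    refine (abs_ser_le (K := 4) fun i => h.1 (i + 2)).trans ?_
    norm_num
  have h0 : |(c 0 : ℝ)| ≤ 4 := by exact_mod_cast h.1 0
  have h0' : |(c 1 : ℝ)| ≤ 4 := by exact_mod_cast h.1 1
  rw [h1, abs_lt]
  rw [abs_le] at h2 h0 h0'
  rcases h.2 0 with h3 | h3
  · have h4 : |(c 0 : ℝ)| ≤ 3 := by exact_mod_cast h3
    rw [abs_le] at h4
    constructor <;> linarith [h4.1, h4.2, h2.1, h2.2, h0'.1, h0'.2]
  · have h4 : |(c 1 : ℝ)| ≤ 3 := by exact_mod_cast h3
    rw [abs_le] at h4
    constructor <;> linarith [h4.1, h4.2, h2.1, h2.2, h0.1, h0.2]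

lemma Good.zero {c : ℕ → ℤ} (h : Good c) (h0 : ser c = 0) :
    c 0 = 0 ∧ ser (fun i => c (i + 1)) = 0 := by
  have h1 := ser_succ h.1
  rw [h0] at h1
  have h2 : (c 0 : ℝ) = - ser (fun i => c (i + 1)) := by linarith
  have h3 := h.shift.lt
  have h4 : |(c 0 : ℝ)| < 1 := by rw [h2, abs_neg]; exact h3
  have h5 : |c 0| < 1 := by exact_mod_cast h4
  have h6 : c 0 = 0 := Int.abs_lt_one_iff.1 h5
  refine ⟨h6, ?_⟩
  rw [h6] at h2
  simp only [Int.cast_zero] at h2
  linarith

theorem Good.eq_zero {c : ℕ → ℤ} {n : ℤ} (h : Good c) (h0 : n + ser c = 0) :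
    n = 0 ∧ ∀ i, c i = 0 := by
  have h1 := h.lt
  have h2 : (n : ℝ) = - ser c := by linarith
  have h4 : |(n : ℝ)| < 1 := by rw [h2, abs_neg]; exact h1
  have h5 : |n| < 1 := by exact_mod_cast h4
  have h6 : n = 0 := Int.abs_lt_one_iff.1 h5
  refine ⟨h6, ?_⟩
  rw [h6] at h0
  simp only [Int.cast_zero, zero_add] at h0
  have key : ∀ i, Good (fun j => c (i + j)) ∧ ser (fun j => c (i + j)) = 0 := by
    intro i
    induction i with
    | zero => simpa using ⟨h, h0⟩
    | succ i ih =>
      obtain ⟨h7, h8⟩ := ih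
      have h9 := (h7.zero h8).2
      have h10 := h7.shift
      have h11 : (fun j => c (i + (j + 1))) = fun j => c (i + 1 + j) := by
        funext j
        congr 1
        ring
      rw [h11] at h9 h10
      exact ⟨h10, h9⟩
  intro i
  have := ((key i).1.zero (key i).2).1
  simpa using this

/-- Every real number has an expansion with digits between `-2` and `2`. -/
theorem exists_expansion (t : ℝ) : ∃ (n : ℤ) (c : ℕ → ℤ), (∀ i, |c i| ≤ (2 : ℕ)) ∧ t = n + ser c := by
  let f : ℝ → ℝ := fun r => 5 * r - ⌊5 * r + 1 / 2⌋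
  let r : ℕ → ℝ := fun i => f^[i] (t - ⌊t + 1 / 2⌋)
  have hr : ∀ i, -(1 / 2) ≤ r i ∧ r i < 1 / 2 := by
    intro i
    induction i with
    | zero =>
      simp only [r, Function.iterate_zero, id]
      have h1 := Int.floor_le (t + 1 / 2)
      have h2 := Int.lt_floor_add_one (t + 1 / 2)
      constructor <;> linarith
    | succ i _ =>
      simp only [r, Function.iterate_succ_apply', f]
      have h1 := Int.floor_le (5 * f^[i] (t - ⌊t + 1 / 2⌋) + 1 / 2)
      have h2 := Int.lt_floor_add_one (5 * f^[i] (t - ⌊t + 1 / 2⌋) + 1 / 2)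
      constructor <;> linarith
  let c : ℕ → ℤ := fun i => ⌊5 * r i + 1 / 2⌋
  have hc : ∀ i, |c i| ≤ (2 : ℕ) := by
    intro i
    obtain ⟨h1, h2⟩ := hr i
    have h3 : -2 ≤ c i := by
      refine Int.le_floor.2 ?_
      push_cast
      linarith
    have h4 : c i < 3 := by
      refine Int.floor_lt.2 ?_
      push_cast
      linarith
    rw [abs_le]
    push_cast
    constructor <;> omega
  have hs : ∀ i, r (i + 1) = 5 * r i - c i := by
    intro i
    simp only [r, Function.iterate_succ_apply', f, c]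
  have hsum : ∀ N, ∑ i ∈ Finset.range N, (c i : ℝ) * (1 / 5 : ℝ) ^ (i + 1) =
      r 0 - r N * (1 / 5 : ℝ) ^ N := by
    intro N
    induction N with
    | zero => simp
    | succ N ih =>
      rw [Finset.sum_range_succ, ih, hs N]
      rw [pow_succ]
      ring
  refine ⟨⌊t + 1 / 2⌋, c, hc, ?_⟩
  have h1 : HasSum (fun i => (c i : ℝ) * (1 / 5 : ℝ) ^ (i + 1)) (r 0) := by
    rw [(summable_ser hc).hasSum_iff_tendsto_nat]
    simp only [hsum]
    have h2 : Tendsto (fun N => r N * (1 / 5 : ℝ) ^ N) atTop (𝓝 0) := by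
      have h3 : Tendsto (fun N : ℕ => (1 / 5 : ℝ) ^ N) atTop (𝓝 0) :=
        tendsto_pow_atTop_nhds_zero_of_lt_one (by norm_num) (by norm_num)
      refine squeeze_zero_norm (fun N => ?_) h3
      rw [norm_mul, Real.norm_of_nonneg (show (0 : ℝ) ≤ (1 / 5) ^ N by positivity)]
      have h4 : ‖r N‖ ≤ 1 := by
        rw [Real.norm_eq_abs, abs_le]
        constructor <;> linarith [(hr N).1, (hr N).2]
      calc ‖r N‖ * (1 / 5 : ℝ) ^ N ≤ 1 * (1 / 5 : ℝ) ^ N :=
            mul_le_mul_of_nonneg_right h4 (by positivity)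
        _ = _ := one_mul _
    have h5 := (tendsto_const_nhds (x := r 0)).sub h2
    simpa using h5
  rw [ser, h1.tsum_eq]
  simp [r]

/-! ### Points of the space of normal forms -/

/-- Interleaving of two sequences. -/
def comb (o q : ℕ → ℤ) (i : ℕ) : ℤ := if i % 2 = 0 then o (i / 2) else q (i / 2)

lemma comb_even (o q : ℕ → ℤ) (m : ℕ) : comb o q (2 * m) = o m := by
  simp [comb]

lemma comb_odd (o q : ℕ → ℤ) (m : ℕ) : comb o q (2 * m + 1) = q m := by
  have h : (2 * m + 1) % 2 = 1 := by omega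
  have h2 : (2 * m + 1) / 2 = m := by omega
  simp [comb, h, h2]

lemma comb_sub (o q o' q' : ℕ → ℤ) (i : ℕ) :
    comb o q i - comb o' q' i = comb (fun m => o m - o' m) (fun m => q m - q' m) i := by
  unfold comb
  split_ifs <;> rfl

lemma comb_bound {o q : ℕ → ℤ} {K : ℕ} (ho : ∀ m, |o m| ≤ K) (hq : ∀ m, |q m| ≤ K) (i : ℕ) :
    |comb o q i| ≤ K := by
  unfold comb
  split_ifs
  · exact ho _
  · exact hq _

/-- The space of normal forms. -/
abbrev Om : Type := ℤ × (ℕ → Fin 4) × (ℕ → Fin 3)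

/-- The even digits of a normal form. -/
def ev (p : Om) (m : ℕ) : ℤ := ((p.2.1 m : ℕ) : ℤ)

/-- The odd digits of a normal form. -/
def od (p : Om) (m : ℕ) : ℤ := ((p.2.2 m : ℕ) : ℤ)

lemma ev_bound (p : Om) (m : ℕ) : 0 ≤ ev p m ∧ ev p m ≤ 3 := by
  have := (p.2.1 m).2
  unfold ev
  omega

lemma od_bound (p : Om) (m : ℕ) : 0 ≤ od p m ∧ od p m ≤ 2 := by
  have := (p.2.2 m).2
  unfold od
  omega

/-- The real number of a normal form. -/
noncomputable def val (p : Om) : ℝ := p.1 + ser (comb (ev p) (od p))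

lemma comb_bound3 (p : Om) (i : ℕ) : |comb (ev p) (od p) i| ≤ (3 : ℕ) := by
  refine comb_bound (fun m => ?_) (fun m => ?_) i
  · obtain ⟨h1, h2⟩ := ev_bound p m
    rw [abs_le]
    push_cast
    constructor <;> omega
  · obtain ⟨h1, h2⟩ := od_bound p m
    rw [abs_le]
    push_cast
    constructor <;> omega

/-- The real number with odd digits `e`. -/
noncomputable def oser (e : ℕ → ℤ) : ℝ := ser (comb (fun _ => 0) e)

/-- The difference of two normal forms. -/
theorem val_sub_eq {p p' : Om} {e : ℕ → ℤ} (he : ∀ m, |e m| ≤ 2)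
    (h : val p - val p' = oser e) :
    p.1 = p'.1 ∧ p.2.1 = p'.2.1 ∧ ∀ m, od p m - od p' m = e m := by
  have hd : ∀ i, |comb (ev p) (od p) i - comb (ev p') (od p') i| ≤ (3 : ℕ) := by
    intro i
    rw [comb_sub]
    refine comb_bound (fun m => ?_) (fun m => ?_) i
    · obtain ⟨h1, h2⟩ := ev_bound p m
      obtain ⟨h3, h4⟩ := ev_bound p' m
      rw [abs_le]
      push_cast
      constructor <;> omega
    · obtain ⟨h1, h2⟩ := od_bound p m
      obtain ⟨h3, h4⟩ := od_bound p' m
      rw [abs_le]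
      push_cast
      constructor <;> omega
  have he' : ∀ i, |comb (fun _ => 0) e i| ≤ (2 : ℕ) := comb_bound (by simp) (by simpa using he)
  have h1 : ser (comb (ev p) (od p)) - ser (comb (ev p') (od p')) =
      ser (fun i => comb (ev p) (od p) i - comb (ev p') (od p') i) :=
    ser_sub (comb_bound3 p) (comb_bound3 p')
  have h2 : ser (fun i => comb (ev p) (od p) i - comb (ev p') (od p') i) - oser e =
      ser (fun i => (comb (ev p) (od p) i - comb (ev p') (od p') i) - comb (fun _ => 0) e i) :=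
    ser_sub hd he'
  have h3 : ((p.1 - p'.1 : ℤ) : ℝ) +
      ser (fun i => (comb (ev p) (od p) i - comb (ev p') (od p') i) - comb (fun _ => 0) e i) = 0 := by
    rw [← h2, ← h1]
    unfold val at h
    push_cast
    linarith
  have hfun : (fun i => (comb (ev p) (od p) i - comb (ev p') (od p') i) - comb (fun _ => 0) e i) =
      comb (fun m => ev p m - ev p' m) (fun m => od p m - od p' m - e m) := by
    funext i
    rw [comb_sub, comb_sub]
    simp
  rw [hfun] at h3
  have hev : ∀ m, |ev p m - ev p' m| ≤ 3 := by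
    intro m
    obtain ⟨h1, h2⟩ := ev_bound p m
    obtain ⟨h3, h4⟩ := ev_bound p' m
    rw [abs_le]
    constructor <;> omega
  have hG : Good (comb (fun m => ev p m - ev p' m) (fun m => od p m - od p' m - e m)) := by
    refine ⟨comb_bound (fun m => ?_) (fun m => ?_), fun i => ?_⟩
    · exact (hev m).trans (by norm_num)
    · obtain ⟨h1, h2⟩ := od_bound p m
      obtain ⟨h3, h4⟩ := od_bound p' m
      have h5 := he m
      rw [abs_le] at h5 ⊢
      push_cast
      constructor <;> omega
    · rcases Nat.even_or_odd' i with ⟨m, rfl | rfl⟩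
      · left
        rw [comb_even]
        exact hev m
      · right
        have : 2 * m + 1 + 1 = 2 * (m + 1) := by ring
        rw [this, comb_even]
        exact hev (m + 1)
  obtain ⟨h4, h5⟩ := hG.eq_zero h3
  refine ⟨by omega, ?_, fun m => ?_⟩
  · funext m
    have := h5 (2 * m)
    rw [comb_even] at this
    unfold ev at this
    ext
    omega
  · have := h5 (2 * m + 1)
    rw [comb_odd] at this
    omega

lemma oser_zero : oser (fun _ => 0) = 0 := by
  have : comb (fun _ => 0) (fun _ => 0) = fun _ => 0 := by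
    funext i
    simp [comb]
  rw [oser, this, ser]
  simp

theorem val_injective : Function.Injective val := by
  intro p p' h
  obtain ⟨h1, h2, h3⟩ := val_sub_eq (p := p) (p' := p') (e := fun _ => 0) (by simp)
    (by rw [h, sub_self, oser_zero])
  refine Prod.ext h1 (Prod.ext h2 ?_)
  funext m
  have := h3 m
  unfold od at this
  ext
  omega

theorem continuous_val : Continuous val := by
  unfold val ser
  refine Continuous.add ?_ ?_
  · exact continuous_of_discreteTopology.comp continuous_fst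
  · refine continuous_tsum (u := fun i => (3 : ℝ) * (1 / 5 : ℝ) ^ (i + 1)) (fun i => ?_)
      (hasSum_geo 3).summable (fun i p => ?_)
    · refine Continuous.mul ?_ continuous_const
      have h : Continuous fun p : Om => comb (ev p) (od p) i := by
        unfold comb
        split_ifs
        · exact (continuous_of_discreteTopology (f := fun a : Fin 4 => ((a : ℕ) : ℤ))).comp
            ((continuous_apply (i / 2)).comp (continuous_fst.comp continuous_snd))
        · exact (continuous_of_discreteTopology (f := fun a : Fin 3 => ((a : ℕ) : ℤ))).comp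
            ((continuous_apply (i / 2)).comp (continuous_snd.comp continuous_snd))
      exact continuous_of_discreteTopology.comp h
    · exact_mod_cast term_le (comb_bound3 p) i

/-- Existence of expansions. -/
theorem exists_rep (t : ℝ) : ∃ (n : ℤ) (a e : ℕ → ℤ), (∀ m, |a m| ≤ 2) ∧ (∀ m, |e m| ≤ 2) ∧
    t = n + ser (comb a e) := by
  obtain ⟨n, c, hc, rfl⟩ := exists_expansion t
  refine ⟨n, fun m => c (2 * m), fun m => c (2 * m + 1), fun m => ?_, fun m => ?_, ?_⟩
  · exact_mod_cast hc (2 * m)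
  · exact_mod_cast hc (2 * m + 1)
  · congr 2
    funext i
    rcases Nat.even_or_odd' i with ⟨m, rfl | rfl⟩
    · rw [comb_even]
    · rw [comb_odd]

/-- The value of a difference. -/
theorem val_sub {p p' : Om} : val p - val p' = ((p.1 - p'.1 : ℤ) : ℝ) +
    ser (comb (fun m => ev p m - ev p' m) (fun m => od p m - od p' m)) := by
  have h1 : ser (comb (ev p) (od p)) - ser (comb (ev p') (od p')) =
      ser (fun i => comb (ev p) (od p) i - comb (ev p') (od p') i) :=
    ser_sub (comb_bound3 p) (comb_bound3 p')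
  have hfun : (fun i => comb (ev p) (od p) i - comb (ev p') (od p') i) =
      comb (fun m => ev p m - ev p' m) (fun m => od p m - od p' m) := by
    funext i
    rw [comb_sub]
  rw [← hfun, ← h1]
  unfold val
  push_cast
  ring

end Q214.TR
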