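import Mathlib
import Pool.Agent.Q214.TR.Digits
import Pool.Agent.Q214.TR.Analytic

/-!
# A Borel set with prescribed differences

Helper file for MP_6a38e0.
-/

set_option autoImplicit false

open Set Filter Topology MeasureTheory

namespace Q214.TR

/-- The integer part and the even digits. -/
def sq (p : Om) : ℕ → ℤ
  | 0 => p.1
  | m + 1 => ev p m

/-- The coding positions. -/
def Mp (j i ε : ℕ) : ℕ := 2 * Nat.pair (j + 1) i + ε

lemma Mp_div {j i ε : ℕ} (h : ε < 2) : Mp j i ε / 2 = Nat.pair (j + 1) i := by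
  unfold Mp; omega

lemma Mp_mod {j i ε : ℕ} (h : ε < 2) : Mp j i ε % 2 = ε := by
  unfold Mp; omega

lemma lt_Mp (j i ε : ℕ) : 2 * j + 1 < Mp j i ε := by
  have := Nat.left_le_pair (j + 1) i
  unfold Mp; omega

/-- The first part of the set. -/
def BB0 : Set Om := {p | 0 ≤ p.1 ∧ ∃ j, (∀ m < j, sq p m = 0) ∧ sq p j ≠ 0 ∧
  ∀ i, od p i = sq p (Mp j i 0) % 2 + sq p (Mp j i 1) % 2}

/-- The digit of a nonnegative part. -/
def qz (z : ℤ) : Fin 3 := ⟨min z.toNat 2, by omega⟩

/-- The list of the values of a sequence. -/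
def uw (w : ℕ → ℕ) (m : ℕ) : Fin 4 := if w (Nat.unpair m).1 = (Nat.unpair m).2 then 1 else 0

lemma uw_injective : Function.Injective uw := by
  intro w w' h
  funext n
  have h1 := congrFun h (Nat.pair n (w n))
  simp only [uw, Nat.unpair_pair, if_true] at h1
  by_contra h2
  rw [if_neg (Ne.symm h2)] at h1
  exact absurd h1 (by decide)

/-- The points of the second part. -/
def pt (g : (ℕ → ℕ) → ℕ → ℤ) (σ : ℤ) (w : ℕ → ℕ) : Om :=
  (-1, uw w, fun i => qz (σ * g w i))

/-- The whole set. -/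
def BB (g : (ℕ → ℕ) → ℕ → ℤ) : Set Om := BB0 ∪ (range (pt g 1) ∪ range (pt g (-1)))

lemma measurable_sq (m : ℕ) : Measurable fun p : Om => sq p m := by
  cases m with
  | zero => exact measurable_fst
  | succ m =>
    simp only [sq, ev]
    exact (measurable_of_countable (fun a : Fin 4 => ((a : ℕ) : ℤ))).comp
      ((measurable_pi_apply m).comp (measurable_fst.comp measurable_snd))

lemma measurable_od (m : ℕ) : Measurable fun p : Om => od p m := by
  unfold od
  exact (measurable_of_countable (fun a : Fin 3 => ((a : ℕ) : ℤ))).comp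
    ((measurable_pi_apply m).comp (measurable_snd.comp measurable_snd))

lemma measurableSet_BB0 : MeasurableSet BB0 := by
  have h : BB0 = {p : Om | 0 ≤ p.1} ∩ ⋃ j, (⋂ m, ⋂ (_ : m < j), {p : Om | sq p m = 0}) ∩
      ({p : Om | sq p j = 0}ᶜ ∩
      ⋂ i, {p : Om | od p i = sq p (Mp j i 0) % 2 + sq p (Mp j i 1) % 2}) := by
    ext p
    simp only [BB0, Set.mem_ofPred_eq, Set.mem_inter_iff, Set.mem_iUnion, Set.mem_iInter,
      Set.mem_compl_iff, ne_eq]
  rw [h]
  have hm : ∀ k, Measurable fun p : Om => sq p k % 2 := fun k =>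
    (measurable_of_countable (fun z : ℤ => z % 2)).comp (measurable_sq k)
  refine (measurableSet_le measurable_const measurable_fst).inter (MeasurableSet.iUnion fun j => ?_)
  refine MeasurableSet.inter ?_ (MeasurableSet.inter ?_ ?_)
  · exact MeasurableSet.iInter fun m => MeasurableSet.iInter fun _ =>
      measurableSet_eq_fun (measurable_sq m) measurable_const
  · exact (measurableSet_eq_fun (measurable_sq j) measurable_const).compl
  · exact MeasurableSet.iInter fun i => measurableSet_eq_fun (measurable_od i)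
      ((hm _).add (hm _))

lemma continuous_pt {g : (ℕ → ℕ) → ℕ → ℤ} (hg : Continuous g) (σ : ℤ) : Continuous (pt g σ) := by
  unfold pt
  refine continuous_const.prodMk (Continuous.prodMk ?_ ?_)
  · refine continuous_pi fun m => ?_
    unfold uw
    exact (continuous_of_discreteTopology
      (f := fun k : ℕ => if k = (Nat.unpair m).2 then (1 : Fin 4) else 0)).comp
      (continuous_apply (Nat.unpair m).1)
  · refine continuous_pi fun m => ?_
    exact (continuous_of_discreteTopology (f := fun z : ℤ => qz (σ * z))).comp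
      ((continuous_apply m).comp hg)

lemma pt_injective (g : (ℕ → ℕ) → ℕ → ℤ) (σ : ℤ) : Function.Injective (pt g σ) := by
  intro w w' h
  refine uw_injective ?_
  have := congrArg (fun p : Om => p.2.1) h
  exact this

lemma measurableSet_BB {g : (ℕ → ℕ) → ℕ → ℤ} (hg : Continuous g) : MeasurableSet (BB g) := by
  refine measurableSet_BB0.union (MeasurableSet.union ?_ ?_)
  · exact measurableSet_range_of_continuous_injective (continuous_pt hg 1) (pt_injective g 1)
  · exact measurableSet_range_of_continuous_injective (continuous_pt hg (-1)) (pt_injective g (-1))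

lemma measurableSet_val_BB {g : (ℕ → ℕ) → ℕ → ℤ} (hg : Continuous g) :
    MeasurableSet (val '' BB g) :=
  (measurableSet_BB hg).image_of_continuousOn_injOn continuous_val.continuousOn
    val_injective.injOn

/-! ### The differences which do not occur -/

lemma sq_eq {p p' : Om} (h1 : p.1 = p'.1) (h2 : p.2.1 = p'.2.1) : sq p = sq p' := by
  funext m
  cases m with
  | zero => exact h1
  | succ m => simp only [sq, ev, h2]

theorem not_mem_diff {g : (ℕ → ℕ) → ℕ → ℤ} (hg : range g = AA) {e : ℕ → ℤ} (he : e ∈ ZZ)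
    {p p' : Om} (hp : p ∈ BB g) (hp' : p' ∈ BB g) : val p - val p' ≠ oser e := by
  intro h
  have heb : ∀ m, |e m| ≤ 2 := by
    obtain ⟨a, b, _, rfl⟩ := he
    exact fun m => (psi_bound _ m).trans (by norm_num)
  have he0 : e ≠ 0 := ZZ.ne_zero he
  have hneg : ∀ w, g w ≠ e ∧ g w ≠ - e := by
    intro w
    have hw : g w ∈ AA := by rw [← hg]; exact mem_range_self w
    exact ⟨fun h1 => hw.2 (h1 ▸ he), fun h1 => hw.2 (h1 ▸ ZZ.neg he)⟩
  obtain ⟨h1, h2, h3⟩ := val_sub_eq heb h
  rcases hp with hp | hp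
  · rcases hp' with hp' | hp'
    · obtain ⟨_, j, hj1, hj2, hj3⟩ := hp
      obtain ⟨_, j', hj1', hj2', hj3'⟩ := hp'
      rw [← sq_eq h1 h2] at hj1' hj2' hj3'
      have hjj : j = j' := by
        rcases lt_trichotomy j j' with h4 | h4 | h4
        · exact absurd (hj1' j h4) hj2
        · exact h4
        · exact absurd (hj1 j' h4) hj2'
      subst hjj
      refine he0 ?_
      funext m
      rw [← h3 m, hj3 m, hj3' m, sub_self]
      rfl
    · have h4 : p'.1 = -1 := by
        rcases hp' with ⟨w, rfl⟩ | ⟨w, rfl⟩ <;> rfl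
      have := hp.1
      omega
  · have h4 : p.1 = -1 := by
      rcases hp with ⟨w, rfl⟩ | ⟨w, rfl⟩ <;> rfl
    rcases hp' with hp' | hp'
    · have := hp'.1
      omega
    · have key : ∃ w σ, (σ = 1 ∨ σ = -1) ∧ pt g σ w = p := by
        rcases hp with ⟨w, h5⟩ | ⟨w, h5⟩
        · exact ⟨w, 1, Or.inl rfl, h5⟩
        · exact ⟨w, -1, Or.inr rfl, h5⟩
      have key' : ∃ w σ, (σ = 1 ∨ σ = -1) ∧ pt g σ w = p' := by
        rcases hp' with ⟨w, h5⟩ | ⟨w, h5⟩
        · exact ⟨w, 1, Or.inl rfl, h5⟩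
        · exact ⟨w, -1, Or.inr rfl, h5⟩
      obtain ⟨w, σ, hσ, rfl⟩ := key
      obtain ⟨w', σ', hσ', rfl⟩ := key'
      have hww : w = w' := uw_injective h2
      subst hww
      have hb : ∀ m, |g w m| ≤ 2 := by
        have hw : g w ∈ AA := by rw [← hg]; exact mem_range_self w
        exact hw.1
      have h6 : ∀ m, ((min (σ * g w m).toNat 2 : ℕ) : ℤ) - ((min (σ' * g w m).toNat 2 : ℕ) : ℤ) =
          e m := h3
      rcases hσ with rfl | rfl <;> rcases hσ' with rfl | rfl
      · refine he0 (funext fun m => ?_)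
        rw [← h6 m, sub_self]; rfl
      · refine (hneg w).1 (funext fun m => ?_)
        rw [← h6 m]
        have := hb m
        rw [abs_le] at this
        omega
      · refine (hneg w).2 (funext fun m => ?_)
        rw [Pi.neg_apply, ← h6 m]
        have := hb m
        rw [abs_le] at this
        omega
      · refine he0 (funext fun m => ?_)
        rw [← h6 m, sub_self]; rfl

/-! ### The differences which occur -/

/-- The choice of two digits with given difference and given parity. -/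
lemma exists_digits (r : ℤ) (hr : |r| ≤ 2) (β : ℤ) (hβ : β = 0 ∨ β = 1) :
    ∃ x y : ℤ, 0 ≤ x ∧ x ≤ 3 ∧ 0 ≤ y ∧ y ≤ 3 ∧ x - y = r ∧ x % 2 = β := by
  rw [abs_le] at hr
  obtain ⟨h1, h2⟩ := hr
  have : r = -2 ∨ r = -1 ∨ r = 0 ∨ r = 1 ∨ r = 2 := by omega
  rcases this with rfl | rfl | rfl | rfl | rfl <;> rcases hβ with rfl | rfl
  · exact ⟨0, 2, by norm_num⟩
  · exact ⟨1, 3, by norm_num⟩
  · exact ⟨0, 1, by norm_num⟩
  · exact ⟨1, 2, by norm_num⟩
  · exact ⟨0, 0, by norm_num⟩
  · exact ⟨1, 1, by norm_num⟩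
  · exact ⟨2, 1, by norm_num⟩
  · exact ⟨1, 0, by norm_num⟩
  · exact ⟨2, 0, by norm_num⟩
  · exact ⟨3, 1, by norm_num⟩

lemma exists_digits' (r : ℤ) (hr : |r| ≤ 2) (β : ℤ) (hβ : β = 0 ∨ β = 1) :
    ∃ x y : ℤ, 0 ≤ x ∧ x ≤ 3 ∧ 0 ≤ y ∧ y ≤ 3 ∧ x - y = r ∧ y % 2 = β := by
  obtain ⟨y, x, h1, h2, h3, h4, h5, h6⟩ := exists_digits (-r) (by rwa [abs_neg]) β hβ
  exact ⟨x, y, h3, h4, h1, h2, by omega, h6⟩

/-- The bit of a number between zero and two. -/
def bt (v : ℤ) (ε : ℕ) : ℤ := if (ε : ℤ) + 1 ≤ v then 1 else 0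

lemma bt_mem (v : ℤ) (ε : ℕ) : bt v ε = 0 ∨ bt v ε = 1 := by
  unfold bt
  split_ifs <;> simp

lemma bt_sum {v : ℤ} (h0 : 0 ≤ v) (h2 : v ≤ 2) : bt v 0 + bt v 1 = v := by
  unfold bt
  split_ifs <;> push_cast at * <;> omega

/-- The combinatorial core: two sequences with a prescribed difference. -/
theorem exists_pair (r : ℕ → ℤ) (k : ℕ) (hr : ∀ m, |r (m + 1)| ≤ 2) (hk : ∀ m < k, r m = 0)
    (hk2 : 0 < r k) (e : ℕ → ℤ) (he : ∀ m, |e m| ≤ 2) :
    ∃ x y : ℕ → ℤ, (∀ m, x m - y m = r m) ∧ (0 ≤ x 0 ∧ 0 ≤ y 0) ∧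
      (∀ m, (0 ≤ x (m + 1) ∧ x (m + 1) ≤ 3) ∧ (0 ≤ y (m + 1) ∧ y (m + 1) ≤ 3)) ∧
      (∀ m < k, x m = 0) ∧ x k ≠ 0 ∧ (∀ m < k + 1, y m = 0) ∧ y (k + 1) ≠ 0 ∧
      (∀ i, x (Mp k i 0) % 2 + x (Mp k i 1) % 2 = max (e i) 0) ∧
      (∀ i, y (Mp (k + 1) i 0) % 2 + y (Mp (k + 1) i 1) % 2 = max (- e i) 0) := by
  have h1 : ∀ m, ∃ x y : ℤ, x - y = r m ∧ (0 < m → (0 ≤ x ∧ x ≤ 3) ∧ (0 ≤ y ∧ y ≤ 3)) ∧
      (m < k → x = 0 ∧ y = 0) ∧ (m = k → x = r k ∧ y = 0) ∧ (m = k + 1 → y ≠ 0) ∧
      (k + 1 < m → (Nat.unpair (m / 2)).1 = k + 1 → x % 2 = bt (max (e (Nat.unpair (m / 2)).2) 0) (m % 2)) ∧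
      (k + 1 < m → (Nat.unpair (m / 2)).1 = k + 2 → y % 2 = bt (max (-e (Nat.unpair (m / 2)).2) 0) (m % 2)) := by
    intro m
    have hrm : 0 < m → |r m| ≤ 2 := by
      intro h
      obtain ⟨m', rfl⟩ := Nat.exists_eq_succ_of_ne_zero h.ne'
      exact hr m'
    rcases lt_trichotomy m k with h | h | h
    · refine ⟨0, 0, by rw [hk m h, sub_self], fun _ => by norm_num, fun _ => ⟨rfl, rfl⟩,
        fun h2 => by omega, fun h2 => by omega, fun h2 => by omega, fun h2 => by omega⟩
    · refine ⟨r m, 0, by rw [sub_zero], fun h2 => ?_, fun h2 => by omega,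
        fun h2 => ⟨by rw [h], rfl⟩, fun h2 => by omega, fun h2 => by omega, fun h2 => by omega⟩
      have h3 := hrm h2
      rw [abs_le] at h3
      rw [h] at h3 ⊢
      omega
    · rcases Nat.lt_or_ge (k + 1) m with h2 | h2
      · by_cases h3 : (Nat.unpair (m / 2)).1 = k + 1
        · obtain ⟨x, y, h4, h5, h6, h7, h8, h9⟩ := exists_digits (r m) (hrm (by omega)) _
            (bt_mem (max (e (Nat.unpair (m / 2)).2) 0) (m % 2))
          exact ⟨x, y, h8, fun _ => ⟨⟨h4, h5⟩, h6, h7⟩, fun h => by omega, fun h => by omega,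
            fun h => by omega, fun _ _ => h9, fun _ h10 => by omega⟩
        · obtain ⟨x, y, h4, h5, h6, h7, h8, h9⟩ := exists_digits' (r m) (hrm (by omega)) _
            (bt_mem (max (-e (Nat.unpair (m / 2)).2) 0) (m % 2))
          exact ⟨x, y, h8, fun _ => ⟨⟨h4, h5⟩, h6, h7⟩, fun h => by omega, fun h => by omega,
            fun h => by omega, fun _ h10 => absurd h10 h3, fun _ _ => h9⟩
      · have h3 : m = k + 1 := by omega
        subst h3
        have h4 := hrm (by omega)
        rw [abs_le] at h4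
        by_cases h5 : r (k + 1) = 2
        · refine ⟨3, 1, by rw [h5]; norm_num, fun _ => by norm_num, fun h => by omega,
            fun h => by omega, fun _ => by norm_num, fun h => by omega, fun h => by omega⟩
        · refine ⟨2 + r (k + 1), 2, by ring, fun _ => by omega, fun h => by omega,
            fun h => by omega, fun _ => by norm_num, fun h => by omega, fun h => by omega⟩
  choose x y h2 h3 h4 h5 h6 h7 h8 using h1
  refine ⟨x, y, h2, ?_, fun m => h3 (m + 1) (by omega), fun m hm => (h4 m hm).1, ?_, ?_,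
    h6 (k + 1) rfl, fun i => ?_, fun i => ?_⟩
  · rcases Nat.eq_zero_or_pos k with h | h
    · have h9 := h5 0 h.symm
      rw [h9.1, h9.2]
      exact ⟨hk2.le, le_refl _⟩
    · have h9 := h4 0 h
      rw [h9.1, h9.2]
      exact ⟨le_refl _, le_refl _⟩
  · rw [(h5 k rfl).1]
    exact hk2.ne'
  · intro m hm
    rcases Nat.lt_succ_iff_lt_or_eq.1 hm with h | h
    · exact (h4 m h).2
    · exact (h5 m h).2
  · have h9 : ∀ ε < 2, x (Mp k i ε) % 2 = bt (max (e i) 0) ε := by
      intro ε hε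
      have h10 := lt_Mp k i ε
      have h11 := h7 (Mp k i ε) (by omega)
      rw [Mp_div hε, Mp_mod hε, Nat.unpair_pair] at h11
      exact h11 rfl
    rw [h9 0 (by norm_num), h9 1 (by norm_num)]
    have := he i
    rw [abs_le] at this
    exact bt_sum (le_max_right _ _) (max_le this.2 (by norm_num))
  · have h9 : ∀ ε < 2, y (Mp (k + 1) i ε) % 2 = bt (max (-e i) 0) ε := by
      intro ε hε
      have h10 := lt_Mp (k + 1) i ε
      have h11 := h8 (Mp (k + 1) i ε) (by omega)
      rw [Mp_div hε, Mp_mod hε, Nat.unpair_pair] at h11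
      exact h11 rfl
    rw [h9 0 (by norm_num), h9 1 (by norm_num)]
    have := he i
    rw [abs_le] at this
    exact bt_sum (le_max_right _ _) (max_le (by omega) (by norm_num))

/-- The digit with a given value. -/
def fd (z : ℤ) : Fin 4 := ⟨min z.toNat 3, by omega⟩

lemma fd_val {z : ℤ} (h0 : 0 ≤ z) (h3 : z ≤ 3) : ((fd z : ℕ) : ℤ) = z := by
  simp only [fd]; omega

lemma qz_val {z : ℤ} (h0 : 0 ≤ z) (h3 : z ≤ 2) : ((qz z : ℕ) : ℤ) = z := by
  simp only [qz]; omega

/-- The nonnegative case. -/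
theorem exists_pair_pos (r : ℕ → ℤ) (k : ℕ) (hr : ∀ m, |r (m + 1)| ≤ 2) (hk : ∀ m < k, r m = 0)
    (hk2 : 0 < r k) (e : ℕ → ℤ) (he : ∀ m, |e m| ≤ 2) :
    ∃ p ∈ BB0, ∃ p' ∈ BB0, val p - val p' =
      (r 0 : ℝ) + ser (comb (fun m => r (m + 1)) e) := by
  obtain ⟨x, y, h1, h2, h3, h4, h5, h6, h7, h8, h9⟩ := exists_pair r k hr hk hk2 e he
  let p : Om := (x 0, fun m => fd (x (m + 1)), fun m => qz (max (e m) 0))
  let p' : Om := (y 0, fun m => fd (y (m + 1)), fun m => qz (max (- e m) 0))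
  have hb : ∀ m, (0 ≤ max (e m) 0 ∧ max (e m) 0 ≤ 2) ∧ (0 ≤ max (-e m) 0 ∧ max (-e m) 0 ≤ 2) := by
    intro m
    have := he m
    rw [abs_le] at this
    omega
  have hev : ∀ m, ev p m = x (m + 1) := fun m => fd_val (h3 m).1.1 (h3 m).1.2
  have hev' : ∀ m, ev p' m = y (m + 1) := fun m => fd_val (h3 m).2.1 (h3 m).2.2
  have hod : ∀ m, od p m = max (e m) 0 := fun m => qz_val (hb m).1.1 (hb m).1.2
  have hod' : ∀ m, od p' m = max (- e m) 0 := fun m => qz_val (hb m).2.1 (hb m).2.2
  have hsq : sq p = x := by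
    funext m
    cases m with
    | zero => rfl
    | succ m => exact hev m
  have hsq' : sq p' = y := by
    funext m
    cases m with
    | zero => rfl
    | succ m => exact hev' m
  refine ⟨p, ⟨h2.1, k, ?_, ?_, fun i => ?_⟩, p', ⟨h2.2, k + 1, ?_, ?_, fun i => ?_⟩, ?_⟩
  · rw [hsq]; exact h4
  · rw [hsq]; exact h5
  · rw [hsq, hod, h8]
  · rw [hsq']; exact h6
  · rw [hsq']; exact h7
  · rw [hsq', hod', h9]
  · rw [val_sub]
    congr 1
    · have := h1 0
      simp only [p, p']
      rw [this]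
    · congr 2
      · funext m
        rw [hev, hev', h1]
      · funext m
        rw [hod, hod']
        omega

/-- The differences of the set. -/
theorem mem_diff {g : (ℕ → ℕ) → ℕ → ℤ} (hg : range g = AA) (t : ℝ) :
    (∃ e ∈ ZZ, t = oser e) ∨ ∃ p ∈ BB g, ∃ p' ∈ BB g, val p - val p' = t := by
  obtain ⟨n, a, e, ha, he, rfl⟩ := exists_rep t
  obtain ⟨r, hr0, hr1⟩ : ∃ r : ℕ → ℤ, r 0 = n ∧ ∀ m, r (m + 1) = a m :=
    ⟨fun m => Nat.rec n (fun k _ => a k) m, rfl, fun _ => rfl⟩
  have hr2 : a = fun m => r (m + 1) := funext fun m => (hr1 m).symm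
  by_cases h : ∀ m, r m = 0
  · have h1 : (n : ℝ) + ser (comb a e) = oser e := by
      have h2 : a = fun _ => 0 := funext fun m => (hr1 m) ▸ h (m + 1)
      have h3 : n = 0 := hr0 ▸ h 0
      rw [h2, h3, oser]
      simp
    rw [h1]
    by_cases h2 : e ∈ ZZ
    · exact Or.inl ⟨e, h2, rfl⟩
    · right
      have h3 : e ∈ range g := by
        rw [hg]
        exact ⟨he, h2⟩
      obtain ⟨w, rfl⟩ := h3
      refine ⟨pt g 1 w, Or.inr (Or.inl ⟨w, rfl⟩), pt g (-1) w, Or.inr (Or.inr ⟨w, rfl⟩), ?_⟩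
      rw [val_sub, oser]
      simp only [pt, sub_self, Int.cast_zero, zero_add]
      congr 2
      · funext m
        simp [ev]
      · funext m
        have := he m
        rw [abs_le] at this
        simp only [od, qz]
        omega
  · right
    classical
    push Not at h
    let k := Nat.find h
    have hk : r k ≠ 0 := Nat.find_spec h
    have hk2 : ∀ m < k, r m = 0 := by
      intro m hm
      have := Nat.find_min h hm
      push Not at this
      exact this
    have hr : ∀ m, |r (m + 1)| ≤ 2 := fun m => by rw [hr1]; exact ha m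
    rcases lt_or_gt_of_ne hk with h1 | h1
    · obtain ⟨p, hp, p', hp', h2⟩ := exists_pair_pos (fun m => - r m) k
        (fun m => by rw [abs_neg]; exact hr m) (fun m hm => by rw [hk2 m hm, neg_zero])
        (by omega) (fun m => - e m) (fun m => by rw [abs_neg]; exact he m)
      refine ⟨p', Or.inl hp', p, Or.inl hp, ?_⟩
      have h3 : val p' - val p = -(val p - val p') := by ring
      rw [h3, h2]
      have h4 : (comb (fun m => -r (m + 1)) fun m => -e m) = fun i => - comb a e i := by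
        rw [hr2]
        funext i
        unfold comb
        split_ifs <;> rfl
      rw [h4, ser_neg, hr0]
      push_cast
      ring
    · obtain ⟨p, hp, p', hp', h2⟩ := exists_pair_pos r k hr hk2 h1 e he
      refine ⟨p, Or.inl hp, p', Or.inl hp', ?_⟩
      rw [h2, hr0, hr2]

end Q214.TR
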